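import Pool.Agent.N931.PN.Stm3

/-!
Project PN (helper931, MP_fe58d8_pr): covariances by Walsh coefficients (COV). Written by helper362.
-/

set_option autoImplicit false

namespace Pool.Agent.N362.PN.Cov

open H974 H12S H389NS H984N H984P H342P Finset
open Pool.Agent.N931.PN

/-- the empty set in the Walsh expansion -/
theorem wal_empty (S : Finset Edg) (f : Finset Edg → ℝ) : wal S f ∅ = Ex hp S f := by
  unfold wal
  apply Ex_congr
  intro F _
  simp [chi]

theorem E2_split (S : Finset Edg) (f g : Finset Edg → ℝ) (x : ℝ) :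
    E2 (fun _ => x) S (fun F F' => f F * g F') = Ex hp S f * Ex hp S g +
      ∑ T ∈ S.powerset.filter (fun T => T.Nonempty), wal S f T * wal S g T * x ^ T.card := by
  rw [E2_wal, ← sum_filter_add_sum_filter_not S.powerset (fun T => T.Nonempty), add_comm]
  congr 1
  · have h1 : S.powerset.filter (fun T => ¬ T.Nonempty) = {∅} := by
      ext T
      rw [mem_filter, mem_singleton, mem_powerset, not_nonempty_iff_eq_empty]
      constructor
      · rintro ⟨-, h⟩
        exact h
      · rintro rfl
        exact ⟨empty_subset _, rfl⟩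
    rw [h1, sum_singleton, prod_empty, mul_one, wal_empty, wal_empty]
  · refine sum_congr rfl fun T _ => ?_
    rw [prod_const]

/-- COV: covariances -/
theorem main : S_COV := by
  intro S f g x hx hx1
  have hsq : ∀ (f : Finset Edg → ℝ) (x : ℝ),
      E2 (fun _ => x) S (fun F F' => f F * f F') - (Ex hp S f) ^ 2 = WT S f x := by
    intro f x
    rw [E2_split]
    unfold WT
    have h1 : ∑ T ∈ S.powerset.filter (fun T => T.Nonempty), wal S f T * wal S f T * x ^ T.card =
        ∑ T ∈ S.powerset.filter (fun T => T.Nonempty), (wal S f T) ^ 2 * x ^ T.card :=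
      sum_congr rfl fun T _ => by ring
    rw [h1]
    ring
  have hone : WT S f 1 = Ex hp S (fun F => (f F) ^ 2) - (Ex hp S f) ^ 2 := by
    rw [← hsq f 1, A7.E2_one (fun _ _ => rfl)]
    congr 1
    apply Ex_congr
    intro F _
    ring
  refine ⟨?_, hsq f x, hone, ?_⟩
  · rw [E2_split, add_sub_cancel_left]
    have h1 : ∀ f : Finset Edg → ℝ, WT S f x =
        ∑ T ∈ S.powerset.filter (fun T => T.Nonempty), (wal S f T * √(x ^ T.card)) ^ 2 := by
      intro f
      unfold WT
      refine sum_congr rfl fun T _ => ?_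
      rw [mul_pow, Real.sq_sqrt (pow_nonneg hx _)]
    have h2 : ∑ T ∈ S.powerset.filter (fun T => T.Nonempty), wal S f T * wal S g T * x ^ T.card =
        ∑ T ∈ S.powerset.filter (fun T => T.Nonempty),
          (wal S f T * √(x ^ T.card)) * (wal S g T * √(x ^ T.card)) := by
      refine sum_congr rfl fun T _ => ?_
      have := Real.mul_self_sqrt (pow_nonneg hx T.card)
      linear_combination -(wal S f T * wal S g T) * this
    rw [h1 f, h1 g, h2, ← Real.sqrt_mul (sum_nonneg fun T _ => sq_nonneg _)]
    apply Real.abs_le_sqrt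
    exact sum_mul_sq_le_sq_mul_sq _ _ _
  · have h1 : ∀ h : Finset Edg → ℝ, E2 (fun _ => x) S (fun F _ => h F) = Ex hp S h :=
      fun h => A6_left _ _ h
    have h2 : ∀ h : Finset Edg → ℝ, E2 (fun _ => x) S (fun _ F' => h F') = Ex hp S h := by
      intro h
      have e1 := E2_wal (fun _ => x) S (fun _ => 1) h
      have e2 := E2_wal (fun _ => x) S h (fun _ => 1)
      simp only [one_mul] at e1
      simp only [mul_one] at e2
      rw [e1, ← h1 h, e2]
      exact sum_congr rfl fun T _ => by ring
    have h3 : E2 (fun _ => x) S (fun F F' => (f F - f F') ^ 2) =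
        Ex hp S (fun F => (f F) ^ 2) + Ex hp S (fun F => (f F) ^ 2) +
          (-2) * E2 (fun _ => x) S (fun F F' => f F * f F') := by
      have h4 : E2 (fun _ => x) S (fun F F' => (f F - f F') ^ 2) = E2 (fun _ => x) S
          (fun F F' => ((f F) ^ 2 + (f F') ^ 2) + (-2) * (f F * f F')) := by
        apply A7.E2_congr
        intro F F' _ _
        ring
      rw [h4, A6_add _ _ (fun F F' => (f F) ^ 2 + (f F') ^ 2) (fun F F' => (-2) * (f F * f F')),
        A6_add _ _ (fun F _ => (f F) ^ 2) (fun _ F' => (f F') ^ 2),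
        h1 (fun F => (f F) ^ 2), h2 (fun F => (f F) ^ 2), A7.E2_mul_left]
    rw [h3, hone, ← hsq f x]
    ring

end Pool.Agent.N362.PN.Cov
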